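import Pool.Agent.H919R4.AS.Ext
import Pool.Agent.H919R4.AS.Defs

set_option autoImplicit false
set_option linter.unusedSectionVars false

open scoped Matrix ENNReal
open Filter Topology

namespace Pool.Agent.H919R4.AS

open Pool.Agent.H496R3.ZS (Ell)
open Pool.Agent.H919R4.ZS (FinRes)

noncomputable section

variable {G : Type} [Group G] {Z : Type} [MulAction G Z]

/-- the trivial multiplier -/
def triv (G Z : Type) [Group G] [MulAction G Z] : Mult G Z where
  φ _ _ := 1
  norm_one _ _ := norm_one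
  mul _ _ _ := (mul_one _).symm

/-- pairing of a chain with a cochain -/
def pV (m : Mult G Z) {n : ℕ} (x : Fin n → MonoidAlgebra ℤ G) (v : Fin n → Ell Z) : Ell Z :=
  ∑ j, LL m (x j) (v j)

variable (m : Mult G Z)

lemma pV_add {n : ℕ} (x y : Fin n → MonoidAlgebra ℤ G) (v : Fin n → Ell Z) :
    pV m (x + y) v = pV m x v + pV m y v := by
  simp [pV, Finset.sum_add_distrib]

lemma pV_neg {n : ℕ} (x : Fin n → MonoidAlgebra ℤ G) (v : Fin n → Ell Z) :
    pV m (-x) v = - pV m x v := by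
  simp [pV, Finset.sum_neg_distrib]

lemma pV_sub {n : ℕ} (x y : Fin n → MonoidAlgebra ℤ G) (v : Fin n → Ell Z) :
    pV m (x - y) v = pV m x v - pV m y v := by
  rw [sub_eq_add_neg, pV_add, pV_neg, sub_eq_add_neg]

lemma pV_smul {n : ℕ} (a : MonoidAlgebra ℤ G) (x : Fin n → MonoidAlgebra ℤ G) (v : Fin n → Ell Z) :
    pV m (a • x) v = LL m a (pV m x v) := by
  simp [pV, map_sum]

lemma pV_vecMul {k n : ℕ} (x : Fin k → MonoidAlgebra ℤ G)
    (D : Matrix (Fin k) (Fin n) (MonoidAlgebra ℤ G)) (v : Fin n → Ell Z) :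
    pV m (x ᵥ* D) v = pV m x (act (D.map (LL m)) v) := by
  simp only [pV, act, Matrix.vecMul, dotProduct, map_sum, Matrix.map_apply, map_mul, sum_apply,
    mul_apply_eq_comp]
  rw [Finset.sum_comm]

lemma pV_single {n : ℕ} (j : Fin n) (v : Fin n → Ell Z) :
    pV m (Pi.single j 1) v = v j := by
  rw [pV, Finset.sum_eq_single j]
  · simp
  · intro i _ hi; simp [Pi.single_eq_of_ne hi]
  · simp

lemma LL_single_one (g : G) (v : Ell Z) (z : Z) :
    LL (triv G Z) (MonoidAlgebra.single g 1) v z = v (g⁻¹ • z) := by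
  rw [LL_single, one_smul, Mult.rep_apply]
  exact one_mul _

/-! ### finitely supported integer functions -/

def hat (f : Z →₀ ℤ) : Ell Z := ⟨fun z => ((f z : ℤ) : ℂ), by
  refine (memℓp_zero ?_).of_exponent_ge zero_le
  refine (f.hasFiniteSupport).subset ?_
  intro z hz
  simp only [Set.mem_ofPred_eq] at hz
  exact fun h => hz (by rw [h]; simp)⟩

lemma hat_apply (f : Z →₀ ℤ) (z : Z) : hat f z = ((f z : ℤ) : ℂ) := rfl

lemma hat_add (a b : Z →₀ ℤ) : hat (a + b) = hat a + hat b := by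
  ext z
  rw [lp.coeFn_add, Pi.add_apply, hat_apply, hat_apply, hat_apply, Finsupp.add_apply, Int.cast_add]

lemma hat_zero : hat (0 : Z →₀ ℤ) = 0 := by
  ext z
  rw [hat_apply]; simp

lemma hat_sum {ι : Type*} (s : Finset ι) (f : ι → (Z →₀ ℤ)) :
    hat (∑ i ∈ s, f i) = ∑ i ∈ s, hat (f i) :=
  map_sum (⟨⟨hat, hat_zero⟩, hat_add⟩ : (Z →₀ ℤ) →+ Ell Z) f s

lemma hat_injective : Function.Injective (hat (Z := Z)) := by
  intro a b hab
  ext z
  have := congrArg (fun v : Ell Z => v z) hab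
  simp only [hat_apply] at this
  exact_mod_cast this

lemma LL_hat (a : MonoidAlgebra ℤ G) (f : Z →₀ ℤ) :
    LL (triv G Z) a (hat f) = hat (ringZ G Z a f) := by
  refine MonoidAlgebra.induction_linear a ?_ ?_ ?_
  · simp [hat_zero]
  · intro x y hx hy
    rw [map_add, add_apply, hx, hy, map_add, ← hat_add]
    rfl
  · intro g r
    ext z
    rw [LL_single]
    have e1 : (r • (triv G Z).rep g : Ell Z →L[ℂ] Ell Z) (hat f) = (r : ℂ) • (triv G Z).rep g (hat f) := by
      rw [Int.cast_smul_eq_zsmul]; simp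
    rw [e1, lp.coeFn_smul, Pi.smul_apply, Mult.rep_apply, hat_apply, hat_apply]
    have e2 : ringZ G Z (MonoidAlgebra.single g r) f = r • Finsupp.mapDomain (fun z : Z => g • z) f := by
      have e4 : ringZ G Z (MonoidAlgebra.single g r) =
          ((r : ℤ) : AddMonoid.End (Z →₀ ℤ)) * permZ G Z g :=
        MonoidAlgebra.liftNCRingHom_single _ _ _ _ _
      rw [e4, ← zsmul_eq_mul]
      rfl
    have e3 : Finsupp.mapDomain (fun z : Z => g • z) f z = f (g⁻¹ • z) := by
      have := Finsupp.mapDomain_apply (MulAction.injective g) f (g⁻¹ • z)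
      rwa [smul_inv_smul] at this
    rw [e2, Finsupp.smul_apply, e3]
    change (r : ℂ) * (1 * ((f (g⁻¹ • z) : ℤ) : ℂ)) = _
    rw [one_mul, smul_eq_mul]
    push_cast
    rfl

lemma act_hat {k n : ℕ} (D : Matrix (Fin k) (Fin n) (MonoidAlgebra ℤ G))
    (y : Fin n → (Z →₀ ℤ)) :
    act (D.map (LL (triv G Z))) (fun j => hat (y j)) =
      fun i => hat (∑ j, ringZ G Z (D i j) (y j)) := by
  funext i
  simp only [act, Matrix.map_apply, LL_hat, hat_sum]

lemma finite_ne_zero_of_int (v : Ell Z) (hv : ∀ h, ∃ n : ℤ, v h = n) : {h | v h ≠ 0}.Finite := by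
  have h2 : 0 < (2 : ℝ≥0∞).toReal := by norm_num
  have hs := (lp.memℓp v).summable h2
  have ht := hs.tendsto_cofinite_zero
  have hev : ∀ᶠ h in Filter.cofinite, ‖v h‖ ^ (2 : ℝ≥0∞).toReal < 1 :=
    ht.eventually (gt_mem_nhds one_pos)
  refine Set.Finite.subset (Filter.eventually_cofinite.1 hev) ?_
  intro h hh
  obtain ⟨n, hn⟩ := hv h
  simp only [Set.mem_ofPred_eq, not_lt]
  have hn0 : n ≠ 0 := by
    rintro rfl
    exact hh (by rw [hn]; simp)
  have h1 : (1 : ℝ) ≤ ‖v h‖ := by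
    rw [hn]
    have : (1 : ℝ) ≤ |(n : ℝ)| := by exact_mod_cast Int.one_le_abs hn0
    simpa using this
  exact Real.one_le_rpow h1 h2.le

lemma exists_hat (v : Ell Z) (hv : ∀ h, ∃ n : ℤ, v h = n) : ∃ a, hat a = v := by
  choose n hn using hv
  have hfin : (Function.support n).Finite := by
    refine (finite_ne_zero_of_int v (fun h => ⟨n h, hn h⟩)).subset ?_
    intro h hh
    simp only [Set.mem_ofPred_eq, hn h]
    exact_mod_cast hh
  refine ⟨Finsupp.ofSupportFinite n hfin, ?_⟩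
  ext h
  rw [hat_apply, hn h]
  rfl

/-! ### real parts -/

def reV (v : Ell Z) : Ell Z := (1 / 2 : ℂ) • (v + star v)

lemma reV_apply (v : Ell Z) (h : Z) : reV v h = ((v h).re : ℂ) := by
  rw [reV, lp.coeFn_smul, Pi.smul_apply, lp.coeFn_add, Pi.add_apply, lp.star_apply, smul_eq_mul]
  rw [Complex.re_eq_add_conj]
  simp only [Complex.star_def]
  ring

lemma reV_add (v w : Ell Z) : reV (v + w) = reV v + reV w := by
  ext h; simp [reV_apply]

lemma reV_zero : reV (0 : Ell Z) = 0 := by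
  ext h; simp [reV_apply]

lemma reV_sum {ι : Type*} (s : Finset ι) (f : ι → Ell Z) :
    reV (∑ i ∈ s, f i) = ∑ i ∈ s, reV (f i) :=
  map_sum (⟨⟨reV, reV_zero⟩, reV_add⟩ : Ell Z →+ Ell Z) f s

lemma LL_reV (a : MonoidAlgebra ℤ G) (v : Ell Z) :
    LL (triv G Z) a (reV v) = reV (LL (triv G Z) a v) := by
  refine MonoidAlgebra.induction_linear a ?_ ?_ ?_
  · simp [reV_zero]
  · intro x y hx hy
    simp only [map_add, add_apply, hx, hy, reV_add]
  · intro g r
    ext h
    rw [reV_apply, LL_single]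
    have e1 : ∀ w : Ell Z, (r • (triv G Z).rep g : Ell Z →L[ℂ] Ell Z) w =
        (r : ℂ) • (triv G Z).rep g w := by
      intro w; rw [Int.cast_smul_eq_zsmul]; simp
    rw [e1, e1, lp.coeFn_smul, Pi.smul_apply, Mult.rep_apply, lp.coeFn_smul, Pi.smul_apply,
      Mult.rep_apply, reV_apply]
    change (r : ℂ) * (1 * _) = (((r : ℂ) * (1 * _)).re : ℂ)
    rw [one_mul, one_mul]
    simp

lemma act_reV {k n : ℕ} (D : Matrix (Fin k) (Fin n) (MonoidAlgebra ℤ G)) (v : Fin n → Ell Z) :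
    act (D.map (LL (triv G Z))) (fun j => reV (v j)) =
      fun i => reV (act (D.map (LL (triv G Z))) v i) := by
  funext i
  simp only [act, Matrix.map_apply, LL_reV, reV_sum]

end

end Pool.Agent.H919R4.AS
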