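import Pool.Agent.H919R4.ZS.Final
import Pool.Agent.H496R3.ZS.Norm

set_option autoImplicit false
set_option linter.unusedSectionVars false

open scoped Matrix ENNReal Pointwise symmDiff
open Filter Topology

namespace Pool.Agent.H919R4.AS

open Pool.Agent.H496R3.ZS (Ell dl dl_apply xi permRep IsAmenable integ integ_apply permRep_dl
  isometry_dl orthonormal_xi permRep_xi norm_sum_sub_sum permRep_apply)
open Pool.Agent.H919R4.ZS (RedC redCstar groupRing toRed toOp toOp_mem lreg lregHom Hil Op FinRes)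

noncomputable section

variable {G : Type} [Group G]

/-- a unitary multiplier for the action on `Z` -/
structure Mult (G Z : Type) [Group G] [MulAction G Z] where
  φ : G → Z → ℂ
  norm_one : ∀ g z, ‖φ g z‖ = 1
  mul : ∀ g h z, φ (g * h) z = φ g z * φ h (g⁻¹ • z)

namespace Mult

variable {Z : Type} [MulAction G Z] (m : Mult G Z)

lemma ne_zero (g : G) (z : Z) : m.φ g z ≠ 0 := by
  intro h; have := m.norm_one g z; rw [h] at this; simp at this

lemma one (z : Z) : m.φ 1 z = 1 := by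
  have h := m.mul 1 1 z
  rw [mul_one, inv_one, one_smul] at h
  exact (mul_eq_left₀ (m.ne_zero 1 z)).1 h.symm

/-- multiplication by a function of modulus one -/
def mulIso {Z : Type} (f : Z → ℂ) (hf : ∀ z, ‖f z‖ = 1) : Ell Z →ₗᵢ[ℂ] Ell Z where
  toFun := fun v => ⟨fun z => f z * v z, by
    refine Memℓp.mono' (lp.memℓp v) (fun z => ?_)
    rw [norm_mul, hf, one_mul]⟩
  map_add' := fun v w => by ext z; exact mul_add _ _ _
  map_smul' := fun c v => by ext z; exact mul_left_comm _ _ _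
  norm_map' := fun v => by
    have h1 : (0 : ℝ) < (2 : ENNReal).toReal := by norm_num
    rw [lp.norm_eq_tsum_rpow h1, lp.norm_eq_tsum_rpow h1]
    congr 1
    refine tsum_congr fun z => ?_
    change ‖f z * v z‖ ^ _ = ‖v z‖ ^ _
    rw [norm_mul, hf, one_mul]

/-- the twisted representation -/
def rep : G →* (Ell Z →L[ℂ] Ell Z) where
  toFun g := (mulIso (m.φ g) (m.norm_one g)).toContinuousLinearMap * permRep G Z g
  map_one' := by
    refine ContinuousLinearMap.ext fun f => ?_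
    ext z
    change m.φ 1 z * f ((1 : G)⁻¹ • z) = f z
    rw [m.one, inv_one, one_smul, one_mul]
  map_mul' g h := by
    refine ContinuousLinearMap.ext fun f => ?_
    ext z
    change m.φ (g * h) z * f ((g * h)⁻¹ • z) = m.φ g z * (m.φ h (g⁻¹ • z) * f (h⁻¹ • (g⁻¹ • z)))
    rw [m.mul, mul_inv_rev, mul_smul, mul_assoc]

lemma rep_apply (g : G) (f : Ell Z) (z : Z) : m.rep g f z = m.φ g z * f (g⁻¹ • z) := rfl

/-- the integrated form -/
def integ : MonoidAlgebra ℂ G →ₐ[ℂ] (Ell Z →L[ℂ] Ell Z) :=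
  MonoidAlgebra.lift ℂ _ G m.rep

lemma integ_apply (x : MonoidAlgebra ℂ G) (v : Ell Z) :
    m.integ x v = ∑ g ∈ x.coeff.support, x.coeff g • m.rep g v := by
  rw [integ, MonoidAlgebra.lift_apply, Finsupp.sum]
  simp only [sum_apply, smul_apply]

end Mult

/-- the multiplier on `G` induced by a multiplier on `G ⧸ C` -/
def up {C : Subgroup G} (m : Mult G (G ⧸ C)) : Mult G G where
  φ g x := m.φ g (QuotientGroup.mk x)
  norm_one g _ := m.norm_one g _
  mul g h _ := m.mul g h _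

lemma norm_up_le {C : Subgroup G} (m : Mult G (G ⧸ C)) (x : MonoidAlgebra ℂ G) (v : Ell G) :
    ‖(up m).integ x v‖ ≤ ‖integ G G x‖ * ‖v‖ := by
  set u : G → ℂ := fun h => m.φ h⁻¹ (QuotientGroup.mk 1) with hu
  have hu1 : ∀ h, ‖u h‖ = 1 := fun h => m.norm_one _ _
  have hui : ∀ h, ‖(u h)⁻¹‖ = 1 := fun h => by rw [norm_inv, hu1, inv_one]
  have hcoc : ∀ g h, u (g⁻¹ * h) = u h * m.φ g (QuotientGroup.mk h) := by
    intro g h
    have h1 := m.mul h⁻¹ g (QuotientGroup.mk 1)
    rw [inv_inv] at h1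
    have h2 : (h • (QuotientGroup.mk 1 : G ⧸ C)) = QuotientGroup.mk h := by
      change (QuotientGroup.mk (h * 1) : G ⧸ C) = _
      rw [mul_one]
    rw [h2] at h1
    simp only [hu, mul_inv_rev, inv_inv]
    exact h1
  have key : (up m).integ x v = Mult.mulIso (fun h => (u h)⁻¹) hui
      (integ G G x (Mult.mulIso u hu1 v)) := by
    rw [Mult.integ_apply, Pool.Agent.H496R3.ZS.integ_apply, map_sum]
    refine Finset.sum_congr rfl fun g _ => ?_
    rw [map_smul]
    congr 1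
    ext h
    change m.φ g (QuotientGroup.mk h) * v (g⁻¹ • h) = (u h)⁻¹ * (u (g⁻¹ • h) * v (g⁻¹ • h))
    have hne : u h ≠ 0 := by
      intro h0; have := hu1 h; rw [h0] at this; simp at this
    rw [smul_eq_mul, hcoc]
    field_simp
  rw [key, LinearIsometry.norm_map]
  refine (ContinuousLinearMap.le_opNorm _ _).trans ?_
  rw [LinearIsometry.norm_map]

/-- Almost intertwining isometries `ℓ²(G/C) → ℓ²(G)`, `C` amenable, with control of supports. -/
lemma exists_isometry' {C : Subgroup G} (hC : IsAmenable C) (S : Finset G) (E : Finset (G ⧸ C))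
    {ε : ℝ} (hε : 0 < ε) :
    ∃ T : Ell (G ⧸ C) →ₗᵢ[ℂ] Ell G, (∀ q, ∃ (F : Finset C) (a : G),
      QuotientGroup.mk a = q ∧ T (dl q) = xi F a) ∧ ∀ g ∈ S, ∀ q ∈ E,
      ‖T (dl (g • q)) - permRep G G g (T (dl q))‖ ≤ ε := by
  classical
  set σ : G ⧸ C → G := Quotient.out with hσ
  have hσ' : ∀ q, (QuotientGroup.mk (σ q) : G ⧸ C) = q := fun q => Quotient.out_eq q
  have hκ : ∀ (g : G) (q : G ⧸ C), ∃ κ : C, g * σ q = σ (g • q) * (κ : G) := by
    intro g q
    have h1 : (QuotientGroup.mk (σ (g • q)) : G ⧸ C) = QuotientGroup.mk (g * σ q) := by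
      rw [hσ']
      conv_lhs => rw [← hσ' q]
      rfl
    rw [QuotientGroup.eq] at h1
    exact ⟨⟨_, h1⟩, by simp⟩
  choose κ hκ using hκ
  obtain ⟨F, hF, hFS⟩ := hC ((S ×ˢ E).image (fun p => κ p.1 p.2)) (ε ^ 2) (by positivity)
  have hcard : (0 : ℝ) < F.card := by exact_mod_cast hF.card_pos
  have horth := orthonormal_xi hF σ hσ'
  have hT : ∀ q, horth.orthogonalFamily.linearIsometry (dl q) = xi F (σ q) :=
    fun q => isometry_dl horth q
  refine ⟨horth.orthogonalFamily.linearIsometry, fun q => ⟨F, σ q, hσ' q, hT q⟩, ?_⟩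
  intro g hg q hq
  rw [hT, hT, permRep_xi F g (σ q) (σ (g • q)) (κ g q) (hκ g q), xi, ← smul_sub, norm_smul]
  have h1 : ‖(∑ c ∈ F, dl (σ (g • q) * (c : G)) : Ell G) -
      ∑ c ∈ F.image (fun c => κ g q * c), dl (σ (g • q) * (c : G))‖ ≤ ε * (F.card : ℝ).sqrt := by
    have h2 := norm_sum_sub_sum F (F.image (fun c => κ g q * c)) (σ (g • q))
    have h3 := hFS (κ g q) (Finset.mem_image.2 ⟨(g, q), Finset.mem_product.2 ⟨hg, hq⟩, rfl⟩)
    have h4 : ((F : Set C) ∆ ((F.image (fun c => κ g q * c) : Finset C) : Set C)) =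
        ((κ g q • (F : Set C)) ∆ (F : Set C)) := by
      rw [symmDiff_comm, Finset.coe_image]
      rfl
    rw [h4] at h2
    have h5 : ‖(∑ c ∈ F, dl (σ (g • q) * (c : G)) : Ell G) -
      ∑ c ∈ F.image (fun c => κ g q * c), dl (σ (g • q) * (c : G))‖ ^ 2 ≤
      (ε * (F.card : ℝ).sqrt) ^ 2 := by
      rw [h2, mul_pow, Real.sq_sqrt hcard.le]
      exact h3
    exact (sq_le_sq₀ (norm_nonneg _) (by positivity)).1 h5
  rw [norm_inv, Complex.norm_real, Real.norm_of_nonneg (Real.sqrt_nonneg _)]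
  rw [inv_mul_le_iff₀ (Real.sqrt_pos.2 hcard), mul_comm]
  exact h1

lemma xi_apply_eq_zero {C : Subgroup G} (F : Finset C) (a x : G)
    (h : (QuotientGroup.mk x : G ⧸ C) ≠ QuotientGroup.mk a) : xi F a x = 0 := by
  classical
  rw [xi, lp.coeFn_smul, Pi.smul_apply, lp.coeFn_sum, Finset.sum_apply, smul_eq_mul]
  rw [Finset.sum_eq_zero, mul_zero]
  intro c _
  rw [dl_apply, if_neg]
  rintro rfl
  apply h
  rw [QuotientGroup.eq]
  simp

lemma rep_dl {C : Subgroup G} (m : Mult G (G ⧸ C)) (g : G) (q : G ⧸ C) :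
    m.rep g (dl q) = m.φ g (g • q) • dl (g • q) := by
  ext z
  rw [Mult.rep_apply, lp.coeFn_smul, Pi.smul_apply, dl_apply, dl_apply, smul_eq_mul]
  by_cases h : z = g • q
  · subst h; simp
  · rw [if_neg h, if_neg (fun e => h (by rw [← e, smul_inv_smul]))]; simp

lemma up_rep_T {C : Subgroup G} (m : Mult G (G ⧸ C)) (g : G) (q : G ⧸ C)
    (F : Finset C) (a : G) (ha : QuotientGroup.mk a = q) :
    (up m).rep g (xi F a) = m.φ g (g • q) • permRep G G g (xi F a) := by
  ext h
  rw [Mult.rep_apply, lp.coeFn_smul, Pi.smul_apply, permRep_apply, smul_eq_mul]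
  by_cases hh : (QuotientGroup.mk (g⁻¹ • h) : G ⧸ C) = QuotientGroup.mk a
  · have : (QuotientGroup.mk h : G ⧸ C) = g • q := by
      rw [← ha, ← hh]
      change _ = (QuotientGroup.mk (g * (g⁻¹ * h)) : G ⧸ C)
      rw [mul_inv_cancel_left]
    change m.φ g (QuotientGroup.mk h) * _ = _
    rw [this]
    rfl
  · have h0 : xi F a (g⁻¹ * h) = 0 := xi_apply_eq_zero F a _ hh
    rw [h0, mul_zero, smul_zero]

lemma integ_finite {C : Subgroup G} (hC : IsAmenable C) (m : Mult G (G ⧸ C))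
    (x : MonoidAlgebra ℂ G) (E : Finset (G ⧸ C)) (c : G ⧸ C → ℂ) :
    ‖m.integ x (∑ q ∈ E, c q • dl q)‖ ≤
      ‖integ G G x‖ * ‖∑ q ∈ E, c q • (dl q : Ell (G ⧸ C))‖ := by
  set v : Ell (G ⧸ C) := ∑ q ∈ E, c q • dl q with hv
  set K : ℝ := ∑ g ∈ x.coeff.support, ∑ q ∈ E, ‖x.coeff g‖ * ‖c q‖ with hK
  have hK0 : 0 ≤ K := Finset.sum_nonneg fun g _ => Finset.sum_nonneg fun q _ => by positivity
  refine le_of_forall_pos_le_add fun ε hε => ?_
  obtain ⟨T, hTs, hT⟩ := exists_isometry' hC x.coeff.support E (ε := ε / (K + 1)) (by positivity)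
  have h1 : T (m.integ x v) - (up m).integ x (T v) =
      ∑ g ∈ x.coeff.support, ∑ q ∈ E, (x.coeff g * c q * m.φ g (g • q)) •
        (T (dl (g • q)) - permRep G G g (T (dl q))) := by
    rw [Mult.integ_apply, Mult.integ_apply, map_sum, ← Finset.sum_sub_distrib]
    refine Finset.sum_congr rfl fun g _ => ?_
    rw [map_smul, ← smul_sub, hv, map_sum, map_sum, map_sum, map_sum,
      ← Finset.sum_sub_distrib, Finset.smul_sum]
    refine Finset.sum_congr rfl fun q _ => ?_
    obtain ⟨F, a, ha, hTa⟩ := hTs q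
    rw [map_smul, map_smul, map_smul, map_smul, rep_dl, map_smul, hTa, up_rep_T m g q F a ha,
      ← smul_sub, ← smul_sub, smul_smul, smul_smul, mul_assoc]
  have h2 : ‖T (m.integ x v) - (up m).integ x (T v)‖ ≤ ε := by
    rw [h1]
    refine (norm_sum_le _ _).trans ?_
    have h3 : ∀ g ∈ x.coeff.support, ‖∑ q ∈ E, (x.coeff g * c q * m.φ g (g • q)) •
        (T (dl (g • q)) - permRep G G g (T (dl q)))‖ ≤
        ∑ q ∈ E, ‖x.coeff g‖ * ‖c q‖ * (ε / (K + 1)) := by
      intro g hg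
      refine (norm_sum_le _ _).trans (Finset.sum_le_sum fun q hq => ?_)
      rw [norm_smul, norm_mul, norm_mul, m.norm_one, mul_one]
      exact mul_le_mul_of_nonneg_left (hT g hg q hq) (by positivity)
    refine (Finset.sum_le_sum h3).trans ?_
    have h4 : ∑ g ∈ x.coeff.support, ∑ q ∈ E, ‖x.coeff g‖ * ‖c q‖ * (ε / (K + 1)) =
        K * (ε / (K + 1)) := by
      rw [hK, Finset.sum_mul]
      refine Finset.sum_congr rfl fun g _ => ?_
      rw [Finset.sum_mul]
    rw [h4, ← mul_div_assoc, div_le_iff₀ (by positivity)]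
    nlinarith
  have h5 : ‖m.integ x v‖ = ‖T (m.integ x v)‖ := (T.norm_map _).symm
  rw [h5]
  calc ‖T (m.integ x v)‖ =
      ‖(up m).integ x (T v) + (T (m.integ x v) - (up m).integ x (T v))‖ := by
        congr 1; abel
    _ ≤ ‖(up m).integ x (T v)‖ + ‖T (m.integ x v) - (up m).integ x (T v)‖ := norm_add_le _ _
    _ ≤ ‖integ G G x‖ * ‖v‖ + ε := by
        refine add_le_add ?_ h2
        refine (norm_up_le m x _).trans ?_
        rw [T.norm_map]

/-- **weak containment** of the twisted permutation representation on `ℓ²(G/C)`, `C` amenable -/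
lemma norm_integ_le {C : Subgroup G} (hC : IsAmenable C) (m : Mult G (G ⧸ C))
    (x : MonoidAlgebra ℂ G) : ‖m.integ x‖ ≤ ‖integ G G x‖ := by
  refine ContinuousLinearMap.opNorm_le_bound _ (norm_nonneg _) fun v => ?_
  have h1 : HasSum (fun z : G ⧸ C => v z • (dl z : Ell (G ⧸ C))) v := by
    classical
    have h := lp.hasSum_single (p := 2) (by norm_num) v
    have h5 : (fun z : G ⧸ C => v z • (dl z : Ell (G ⧸ C))) = fun z => lp.single 2 z (v z) := by
      funext z
      ext w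
      rw [lp.coeFn_smul, Pi.smul_apply, dl_apply, smul_eq_mul]
      by_cases h : w = z
      · subst h; simp
      · rw [if_neg h, lp.single_apply_ne _ _ _ h, mul_zero]
    rw [h5]
    exact h
  have h2 : Tendsto (fun E : Finset (G ⧸ C) => ∑ z ∈ E, v z • (dl z : Ell (G ⧸ C))) atTop (𝓝 v) := h1
  have h3 : Tendsto (fun E : Finset (G ⧸ C) =>
      ‖m.integ x (∑ z ∈ E, v z • (dl z : Ell (G ⧸ C)))‖) atTop (𝓝 ‖m.integ x v‖) :=
    (((m.integ x).continuous.tendsto v).comp h2).norm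
  have h4 : Tendsto (fun E : Finset (G ⧸ C) =>
      ‖integ G G x‖ * ‖∑ z ∈ E, v z • (dl z : Ell (G ⧸ C))‖) atTop
      (𝓝 (‖integ G G x‖ * ‖v‖)) := h2.norm.const_mul _
  exact le_of_tendsto_of_tendsto' h3 h4 (fun E => integ_finite hC m x E (fun z => v z))

end

end Pool.Agent.H919R4.AS
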